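import Pool.Agent.U645.VS.Stm

/-!
# Project VS, package D: designs with multiset blocks and symmetric weights on triples
-/

set_option autoImplicit false

open Finset

namespace Pool.Agent.U618.VS.D

open Pool.Agent.U645.VS

/-- the block with the places `x`, `y`, `z` -/
def tr {v : ℕ} (x y z : Fin v) : Multiset (Fin v) := x ::ₘ y ::ₘ z ::ₘ 0

theorem tr_swap12 {v : ℕ} (x y z : Fin v) : tr x y z = tr y x z := by
  unfold tr; exact Multiset.cons_swap _ _ _

theorem tr_swap23 {v : ℕ} (x y z : Fin v) : tr x y z = tr x z y := by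
  unfold tr; rw [Multiset.cons_swap y z 0]

theorem mem_tr {v : ℕ} (x y z a : Fin v) : a ∈ tr x y z ↔ a = x ∨ a = y ∨ a = z := by
  unfold tr; simp

theorem card_tr {v : ℕ} (x y z : Fin v) : Multiset.card (tr x y z) = 3 := by
  unfold tr; simp

theorem count_tr {v : ℕ} (x y z a : Fin v) :
    (tr x y z).count a = (if a = x then 1 else 0) + (if a = y then 1 else 0)
      + (if a = z then 1 else 0) := by
  unfold tr
  simp only [Multiset.count_cons, Multiset.count_zero]
  ring

/-- a multiset with three places which contains `i ≠ j` is `{i, j, z}` -/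
theorem exists_third {v : ℕ} (B : Multiset (Fin v)) (hB : Multiset.card B = 3) (i j : Fin v)
    (hij : i ≠ j) (hi : i ∈ B) (hj : j ∈ B) : ∃ z, B = tr i j z := by
  obtain ⟨C, rfl⟩ := Multiset.exists_cons_of_mem hi
  have hj' : j ∈ C := by
    rcases Multiset.mem_cons.1 hj with h | h
    · exact absurd h.symm hij
    · exact h
  obtain ⟨E, rfl⟩ := Multiset.exists_cons_of_mem hj'
  have hE : Multiset.card E = 1 := by
    simp only [Multiset.card_cons] at hB
    omega
  obtain ⟨z, rfl⟩ := Multiset.card_eq_one.1 hE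
  exact ⟨z, rfl⟩

theorem tr_inj {v : ℕ} (i j z w : Fin v) : tr i j z = tr i j w ↔ z = w := by
  constructor
  · intro h
    unfold tr at h
    have h1 := (Multiset.cons_inj_right _).1 h
    have h2 := (Multiset.cons_inj_right _).1 h1
    exact (Multiset.cons_inj_left _).1 h2
  · rintro rfl
    rfl

/-- a block with three distinct points is not of the form `{a, a, b}` -/
theorem ne_double {v : ℕ} {x y z a b : Fin v} (hxy : x ≠ y) (hyz : y ≠ z) (hxz : x ≠ z)
    (h : tr x y z = tr a a b) : False := by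
  have h1 := congrArg (Multiset.count a) h
  rw [count_tr, count_tr] at h1
  simp only [if_true] at h1
  by_cases hax : a = x
  · have hay : a ≠ y := fun h => hxy (hax.symm.trans h)
    have haz : a ≠ z := fun h => hxz (hax.symm.trans h)
    rw [if_pos hax, if_neg hay, if_neg haz] at h1
    omega
  · by_cases hay : a = y
    · have haz : a ≠ z := fun h => hyz (hay.symm.trans h)
      rw [if_neg hax, if_pos hay, if_neg haz] at h1
      omega
    · rw [if_neg hax, if_neg hay] at h1
      split_ifs at h1 <;> omega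

theorem double_inj {v : ℕ} {x y a b : Fin v} (hxy : x ≠ y) :
    tr x x y = tr a a b ↔ x = a ∧ y = b := by
  constructor
  · intro hB
    have h1 := congrArg (Multiset.count a) hB
    rw [count_tr, count_tr] at h1
    simp only [if_true] at h1
    have hax : a = x := by
      by_contra hax
      rw [if_neg hax] at h1
      split_ifs at h1 <;> omega
    subst hax
    exact ⟨rfl, (tr_inj _ _ _ _).1 hB⟩
  · rintro ⟨rfl, rfl⟩
    rfl

/-- the concurrence of two points in one block -/
theorem key1 {v : ℕ} (B : Multiset (Fin v)) (hB : Multiset.card B = 3)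
    (i j : Fin v) (hij : i ≠ j) :
    B.count i * B.count j =
      (∑ z, if (i ≠ j ∧ j ≠ z ∧ i ≠ z) ∧ tr i j z = B then 1 else 0)
        + 2 * (if tr i i j = B then 1 else 0) + 2 * (if tr j j i = B then 1 else 0) := by
  by_cases hi : i ∈ B
  · by_cases hj : j ∈ B
    · obtain ⟨z0, rfl⟩ := exists_third B hB i j hij hi hj
      have e1 : tr i i j = tr i j z0 ↔ z0 = i := by
        rw [tr_swap23 i i j, tr_inj, eq_comm]
      have e2 : tr j j i = tr i j z0 ↔ z0 = j := by
        rw [tr_swap23 j j i, tr_swap12 j i j, tr_inj, eq_comm]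
      simp only [e1, e2, tr_inj, count_tr]
      have hji : ¬ j = i := fun h => hij h.symm
      by_cases hzi : z0 = i
      · subst hzi
        have h0 : ∀ z : Fin v, (if (z0 ≠ j ∧ j ≠ z ∧ z0 ≠ z) ∧ z = z0 then (1 : ℕ) else 0) = 0 := by
          intro z
          rw [if_neg]
          rintro ⟨⟨_, _, h⟩, h'⟩
          exact h h'.symm
        simp only [h0, Finset.sum_const_zero]
        simp [hij, hji]
      · by_cases hzj : z0 = j
        · subst hzj
          have h0 : ∀ z : Fin v, (if (i ≠ z0 ∧ z0 ≠ z ∧ i ≠ z) ∧ z = z0 then (1 : ℕ) else 0) = 0 := by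
            intro z
            rw [if_neg]
            rintro ⟨⟨_, h, _⟩, h'⟩
            exact h h'.symm
          simp only [h0, Finset.sum_const_zero]
          simp [hij, hji]
        · have h0 : ∀ z : Fin v, (if (i ≠ j ∧ j ≠ z ∧ i ≠ z) ∧ z = z0 then (1 : ℕ) else 0)
              = if z = z0 then 1 else 0 := by
            intro z
            by_cases hz : z = z0
            · subst hz
              have a1 : j ≠ z := fun h => hzj h.symm
              have a2 : i ≠ z := fun h => hzi h.symm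
              simp [hij, a1, a2]
            · simp [hz]
          simp only [h0, Finset.sum_ite_eq', Finset.mem_univ, if_true]
          have a1 : ¬ j = z0 := fun h => hzj h.symm
          have a2 : ¬ i = z0 := fun h => hzi h.symm
          simp [hij, hji, a1, a2, hzi, hzj]
    · rw [Multiset.count_eq_zero_of_notMem hj, Nat.mul_zero]
      have h0 : ∀ z : Fin v, (if (i ≠ j ∧ j ≠ z ∧ i ≠ z) ∧ tr i j z = B then (1 : ℕ) else 0) = 0 := by
        intro z
        rw [if_neg]
        rintro ⟨_, rfl⟩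
        exact hj ((mem_tr _ _ _ _).2 (Or.inr (Or.inl rfl)))
      have h1 : ¬ tr i i j = B := by
        rintro rfl
        exact hj ((mem_tr _ _ _ _).2 (Or.inr (Or.inr rfl)))
      have h2 : ¬ tr j j i = B := by
        rintro rfl
        exact hj ((mem_tr _ _ _ _).2 (Or.inl rfl))
      simp only [h0, Finset.sum_const_zero, if_neg h1, if_neg h2]
  · rw [Multiset.count_eq_zero_of_notMem hi, Nat.zero_mul]
    have h0 : ∀ z : Fin v, (if (i ≠ j ∧ j ≠ z ∧ i ≠ z) ∧ tr i j z = B then (1 : ℕ) else 0) = 0 := by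
      intro z
      rw [if_neg]
      rintro ⟨_, rfl⟩
      exact hi ((mem_tr _ _ _ _).2 (Or.inl rfl))
    have h1 : ¬ tr i i j = B := by
      rintro rfl
      exact hi ((mem_tr _ _ _ _).2 (Or.inl rfl))
    have h2 : ¬ tr j j i = B := by
      rintro rfl
      exact hi ((mem_tr _ _ _ _).2 (Or.inr (Or.inr rfl)))
    simp only [h0, Finset.sum_const_zero, if_neg h1, if_neg h2]

/-- the multiplicities of the triples of distinct points -/
def W {v : ℕ} (D : Multiset (Multiset (Fin v))) (x y z : Fin v) : ℕ :=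
  if x ≠ y ∧ y ≠ z ∧ x ≠ z then D.count (tr x y z) else 0

theorem W_zero {v : ℕ} (x y z : Fin v) : W (0 : Multiset (Multiset (Fin v))) x y z = 0 := by
  unfold W; simp

theorem W_cons {v : ℕ} (B : Multiset (Fin v)) (D : Multiset (Multiset (Fin v))) (x y z : Fin v) :
    W (B ::ₘ D) x y z = W D x y z
      + if (x ≠ y ∧ y ≠ z ∧ x ≠ z) ∧ tr x y z = B then 1 else 0 := by
  unfold W
  by_cases h : x ≠ y ∧ y ≠ z ∧ x ≠ z
  · rw [if_pos h, if_pos h, Multiset.count_cons]
    by_cases h' : tr x y z = B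
    · rw [if_pos h', if_pos ⟨h, h'⟩]
    · rw [if_neg h', if_neg (fun q => h' q.2)]
  · rw [if_neg h, if_neg h, if_neg (fun q => h q.1)]

/-- the concurrence of two points -/
theorem key {v : ℕ} (D : Multiset (Multiset (Fin v))) (i j : Fin v) (hij : i ≠ j) :
    (∀ B ∈ D, Multiset.card B = 3) →
    (D.map fun B => B.count i * B.count j).sum =
      (∑ z, W D i j z) + 2 * D.count (tr i i j) + 2 * D.count (tr j j i) := by
  induction D using Multiset.induction_on with
  | empty => intro _; simp [W_zero]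
  | cons B D ih =>
    intro hD
    have ih' := ih (fun C hC => hD C (Multiset.mem_cons_of_mem hC))
    have hB := key1 B (hD B (Multiset.mem_cons_self _ _)) i j hij
    rw [Multiset.map_cons, Multiset.sum_cons, ih', hB, Multiset.count_cons, Multiset.count_cons]
    simp only [W_cons, Finset.sum_add_distrib]
    ring

theorem sum_count_tr {v : ℕ} (a b c : Fin v) : ∑ x, (tr a b c).count x = 3 := by
  simp only [count_tr, Finset.sum_add_distrib, Finset.sum_ite_eq', Finset.mem_univ, if_true]

theorem offdiag {v : ℕ} (f : Fin v → ℕ) :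
    (∑ x, ∑ y, if x ≠ y then f x * f y else 0) + ∑ x, f x * f x = (∑ x, f x) * ∑ y, f y := by
  rw [Finset.sum_mul, ← Finset.sum_add_distrib]
  refine Finset.sum_congr rfl (fun x _ => ?_)
  rw [Finset.mul_sum]
  have h : ∀ y, f x * f y = (if x ≠ y then f x * f y else 0) + if x = y then f x * f y else 0 := by
    intro y
    by_cases h : x = y
    · simp [h]
    · simp [h]
  rw [Finset.sum_congr rfl (fun y _ => h y), Finset.sum_add_distrib, Finset.sum_ite_eq]
  simp

/-- the number of places, one block -/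
theorem card1 {v : ℕ} (B : Multiset (Fin v)) (hB : IsBlock B) :
    (∑ x, ∑ y, ∑ z, if (x ≠ y ∧ y ≠ z ∧ x ≠ z) ∧ tr x y z = B then 1 else 0) + 12
      = 3 * ∑ x, ∑ y, if x ≠ y then B.count x * B.count y else 0 := by
  obtain ⟨hc, a, ha, b, hb, hab⟩ := hB
  have hS : (∑ x, ∑ y, if x ≠ y then B.count x * B.count y else 0)
      = (∑ x, ∑ y, ∑ z, if (x ≠ y ∧ y ≠ z ∧ x ≠ z) ∧ tr x y z = B then 1 else 0)
        + 4 * ∑ x, ∑ y, if x ≠ y ∧ tr x x y = B then 1 else 0 := by
    have h1 : ∀ x y : Fin v, (if x ≠ y then B.count x * B.count y else 0)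
        = (∑ z, if (x ≠ y ∧ y ≠ z ∧ x ≠ z) ∧ tr x y z = B then 1 else 0)
          + 2 * (if x ≠ y ∧ tr x x y = B then 1 else 0)
          + 2 * (if y ≠ x ∧ tr y y x = B then 1 else 0) := by
      intro x y
      by_cases hxy : x = y
      · subst hxy
        simp
      · have hyx : y ≠ x := fun h => hxy h.symm
        rw [if_pos hxy, key1 B hc x y hxy]
        by_cases q1 : tr x x y = B <;> by_cases q2 : tr y y x = B <;> simp [hxy, hyx, q1, q2]
    rw [Finset.sum_congr rfl (fun x _ => Finset.sum_congr rfl (fun y _ => h1 x y))]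
    simp only [Finset.sum_add_distrib]
    have h2 : (∑ x : Fin v, ∑ y : Fin v, 2 * (if y ≠ x ∧ tr y y x = B then 1 else 0))
        = ∑ x : Fin v, ∑ y : Fin v, 2 * (if x ≠ y ∧ tr x x y = B then 1 else 0) := Finset.sum_comm
    rw [h2]
    simp only [← Finset.mul_sum]
    ring
  obtain ⟨c, rfl⟩ := exists_third B hc a b hab ha hb
  have hO := offdiag (fun x => (tr a b c).count x)
  simp only [sum_count_tr] at hO
  have hcase : (∃ x y, x ≠ y ∧ tr a b c = tr x x y) ∨ (a ≠ b ∧ b ≠ c ∧ a ≠ c) := by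
    by_cases hca : a = c
    · subst hca
      exact Or.inl ⟨a, b, hab, by rw [tr_swap23]⟩
    · by_cases hcb : b = c
      · subst hcb
        exact Or.inl ⟨b, a, hab.symm, by rw [tr_swap12, tr_swap23]⟩
      · exact Or.inr ⟨hab, hcb, hca⟩
  rcases hcase with ⟨x0, y0, hxy0, he⟩ | ⟨h1, h2, h3⟩
  · rw [he] at hS hO ⊢
    have hsq : ∑ x, (tr x0 x0 y0).count x * (tr x0 x0 y0).count x = 5 := by
      have : ∀ x, (tr x0 x0 y0).count x * (tr x0 x0 y0).count x
          = (if x = x0 then 4 else 0) + if x = y0 then 1 else 0 := by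
        intro x
        rw [count_tr]
        by_cases q1 : x = x0
        · have q2 : ¬ x = y0 := fun h => hxy0 (q1.symm.trans h)
          simp [q1, hxy0]
        · by_cases q2 : x = y0
          · have q3 : ¬ y0 = x0 := fun h => hxy0 h.symm
            simp [q2, q3]
          · simp [q1, q2]
      rw [Finset.sum_congr rfl (fun x _ => this x), Finset.sum_add_distrib, Finset.sum_ite_eq',
        Finset.sum_ite_eq']
      simp
    have hM : (∑ x, ∑ y, if x ≠ y ∧ tr x x y = tr x0 x0 y0 then 1 else 0) = 1 := by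
      have : ∀ x y, (if x ≠ y ∧ tr x x y = tr x0 x0 y0 then 1 else 0)
          = if x = x0 then (if y = y0 then 1 else 0) else 0 := by
        intro x y
        by_cases hxy : x = y
        · subst hxy
          rw [if_neg (fun h => h.1 rfl)]
          by_cases q : x = x0
          · rw [if_pos q, if_neg (fun h => hxy0 (q.symm.trans h))]
          · rw [if_neg q]
        · by_cases q1 : x = x0
          · by_cases q2 : y = y0
            · rw [if_pos q1, if_pos q2, if_pos ⟨hxy, (double_inj hxy).2 ⟨q1, q2⟩⟩]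
            · rw [if_pos q1, if_neg q2, if_neg (fun h => q2 ((double_inj hxy).1 h.2).2)]
          · rw [if_neg q1, if_neg (fun h => q1 ((double_inj hxy).1 h.2).1)]
      rw [Finset.sum_congr rfl (fun x _ => Finset.sum_congr rfl (fun y _ => this x y))]
      have h4 : ∀ x : Fin v, (∑ y, if x = x0 then (if y = y0 then 1 else 0) else 0)
          = if x = x0 then 1 else 0 := by
        intro x
        by_cases q : x = x0
        · simp [q]
        · simp [q]
      rw [Finset.sum_congr rfl (fun x _ => h4 x)]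
      simp
    rw [hsq] at hO
    rw [hM] at hS
    omega
  · have hsq : ∑ x, (tr a b c).count x * (tr a b c).count x = 3 := by
      have : ∀ x, (tr a b c).count x * (tr a b c).count x = (tr a b c).count x := by
        intro x
        rw [count_tr]
        by_cases q1 : x = a
        · have q2 : ¬ x = b := fun h => h1 (q1.symm.trans h)
          have q3 : ¬ x = c := fun h => h3 (q1.symm.trans h)
          rw [if_pos q1, if_neg q2, if_neg q3]
        · by_cases q2 : x = b
          · have q3 : ¬ x = c := fun h => h2 (q2.symm.trans h)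
            rw [if_neg q1, if_pos q2, if_neg q3]
          · rw [if_neg q1, if_neg q2]
            split_ifs <;> rfl
      rw [Finset.sum_congr rfl (fun x _ => this x), sum_count_tr]
    have hM : (∑ x, ∑ y, if x ≠ y ∧ tr x x y = tr a b c then 1 else 0) = 0 := by
      refine Finset.sum_eq_zero (fun x _ => Finset.sum_eq_zero (fun y _ => ?_))
      rw [if_neg]
      rintro ⟨_, h⟩
      exact ne_double h1 h2 h3 h.symm
    rw [hsq] at hO
    rw [hM] at hS
    omega

/-- the number of blocks -/
theorem cardD {v : ℕ} (D : Multiset (Multiset (Fin v))) : (∀ B ∈ D, IsBlock B) →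
    (∑ x, ∑ y, ∑ z, W D x y z) + 12 * Multiset.card D
      = 3 * ∑ x, ∑ y, if x ≠ y then (D.map fun B => B.count x * B.count y).sum else 0 := by
  induction D using Multiset.induction_on with
  | empty => intro _; simp [W_zero]
  | cons B D ih =>
    intro hD
    have ih' := ih (fun C hC => hD C (Multiset.mem_cons_of_mem hC))
    have hB := card1 B (hD B (Multiset.mem_cons_self _ _))
    have h1 : ∀ x y : Fin v,
        (if x ≠ y then ((B ::ₘ D).map fun B => B.count x * B.count y).sum else 0)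
        = (if x ≠ y then B.count x * B.count y else 0)
          + if x ≠ y then (D.map fun B => B.count x * B.count y).sum else 0 := by
      intro x y
      by_cases h : x ≠ y
      · rw [if_pos h, if_pos h, if_pos h, Multiset.map_cons, Multiset.sum_cons]
      · rw [if_neg h, if_neg h, if_neg h]
    rw [Finset.sum_congr rfl (fun x _ => Finset.sum_congr rfl (fun y _ => h1 x y))]
    simp only [W_cons, Finset.sum_add_distrib, Multiset.card_cons]
    linarith [hB, ih']

theorem sum_ne {v : ℕ} (l : ℕ) : (∑ x : Fin v, ∑ y : Fin v, if x ≠ y then l else 0)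
    = l * (v * (v - 1)) := by
  have h : ∀ x : Fin v, (∑ y : Fin v, if x ≠ y then l else 0) = (v - 1) * l := by
    intro x
    rw [← Finset.sum_filter, Finset.sum_const, smul_eq_mul]
    congr 1
    rw [Finset.filter_ne, Finset.card_erase_of_mem (Finset.mem_univ _), Finset.card_univ,
      Fintype.card_fin]
  rw [Finset.sum_congr rfl (fun x _ => h x), Finset.sum_const, smul_eq_mul, Finset.card_univ,
    Fintype.card_fin]
  ring

theorem number {v l : ℕ} (D : Multiset (Multiset (Fin v))) (h : IsVB v l D) :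
    (∑ x, ∑ y, ∑ z, W D x y z) + 12 * Multiset.card D = 3 * l * (v * (v - 1)) := by
  rw [cardD D h.1]
  have h1 : ∀ x y : Fin v, (if x ≠ y then (D.map fun B => B.count x * B.count y).sum else 0)
      = if x ≠ y then l else 0 := by
    intro x y
    by_cases hxy : x ≠ y
    · rw [if_pos hxy, if_pos hxy, h.2 x y hxy]
    · rw [if_neg hxy, if_neg hxy]
  rw [Finset.sum_congr rfl (fun x _ => Finset.sum_congr rfl (fun y _ => h1 x y)), sum_ne]
  ring

theorem forward {v l b : ℕ} (D : Multiset (Multiset (Fin v))) (h : IsVB v l D)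
    (hb : Multiset.card D = b) :
    ∃ w : Fin v → Fin v → Fin v → ℕ, IsTri w ∧
      (∀ x y, x ≠ y → ∑ z, w x y z ≤ l ∧ (∑ z, w x y z) % 2 = l % 2) ∧
      (∑ x, ∑ y, ∑ z, w x y z) + 12 * b = 3 * l * (v * (v - 1)) := by
  refine ⟨W D, ⟨?_, ?_, ?_⟩, ?_, ?_⟩
  · intro x y z
    unfold W
    rw [tr_swap12 x y z]
    congr 1
    apply propext
    constructor
    · rintro ⟨h1, h2, h3⟩
      exact ⟨h1.symm, h3, h2⟩
    · rintro ⟨h1, h2, h3⟩
      exact ⟨h1.symm, h3, h2⟩
  · intro x y z
    unfold W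
    rw [tr_swap23 x y z]
    congr 1
    apply propext
    constructor
    · rintro ⟨h1, h2, h3⟩
      exact ⟨h3, h2.symm, h1⟩
    · rintro ⟨h1, h2, h3⟩
      exact ⟨h3, h2.symm, h1⟩
  · intro x y
    unfold W
    rw [if_neg (fun h => h.1 rfl)]
  · intro x y hxy
    have hk := key D x y hxy (fun B hB => (h.1 B hB).1)
    rw [h.2 x y hxy] at hk
    omega
  · rw [← hb]
    exact number D h

open Classical in
theorem backward {v l b : ℕ} (w : Fin v → Fin v → Fin v → ℕ) (hw : IsTri w)
    (h1 : ∀ x y, x ≠ y → ∑ z, w x y z ≤ l ∧ (∑ z, w x y z) % 2 = l % 2)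
    (h2 : (∑ x, ∑ y, ∑ z, w x y z) + 12 * b = 3 * l * (v * (v - 1))) :
    ∃ D : Multiset (Multiset (Fin v)), IsVB v l D ∧ Multiset.card D = b := by
  obtain ⟨ht1, ht2, ht3⟩ := hw
  have hcs : ∀ x y, ∑ z, w x y z = ∑ z, w y x z := by
    intro x y
    exact Finset.sum_congr rfl (fun z _ => ht1 x y z)
  set e : Fin v → Fin v → ℕ := fun x y => (l - ∑ z, w x y z) / 2 with he
  have he1 : ∀ x y, x ≠ y → (∑ z, w x y z) + 2 * e x y = l := by
    intro x y hxy
    obtain ⟨q1, q2⟩ := h1 x y hxy
    simp only [he]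
    omega
  have hes : ∀ x y, e x y = e y x := by
    intro x y
    simp only [he]
    rw [hcs x y]
  -- the multiplicity of a block
  set mult : Multiset (Fin v) → ℕ := fun B =>
    if h : ∃ p : Fin v × Fin v × Fin v, (p.1 ≠ p.2.1 ∧ p.2.1 ≠ p.2.2 ∧ p.1 ≠ p.2.2) ∧
        B = tr p.1 p.2.1 p.2.2 then w h.choose.1 h.choose.2.1 h.choose.2.2
    else if h : ∃ q : Fin v × Fin v, q.1 < q.2 ∧ B = tr q.1 q.1 q.2 then e h.choose.1 h.choose.2
    else 0 with hmult
  have hm1 : ∀ x y z, x ≠ y → y ≠ z → x ≠ z → mult (tr x y z) = w x y z := by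
    intro x y z hxy hyz hxz
    have hex : ∃ p : Fin v × Fin v × Fin v, (p.1 ≠ p.2.1 ∧ p.2.1 ≠ p.2.2 ∧ p.1 ≠ p.2.2) ∧
        tr x y z = tr p.1 p.2.1 p.2.2 := ⟨(x, y, z), ⟨hxy, hyz, hxz⟩, rfl⟩
    simp only [hmult]
    rw [dif_pos hex]
    obtain ⟨⟨d1, d2, d3⟩, hB⟩ := hex.choose_spec
    generalize hex.choose = p at d1 d2 d3 hB ⊢
    obtain ⟨a, b', c'⟩ := p
    simp only at d1 d2 d3 hB ⊢
    have ha : a = x ∨ a = y ∨ a = z :=
      (mem_tr x y z a).1 (by rw [hB]; exact (mem_tr _ _ _ _).2 (Or.inl rfl))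
    have hb : b' = x ∨ b' = y ∨ b' = z :=
      (mem_tr x y z b').1 (by rw [hB]; exact (mem_tr _ _ _ _).2 (Or.inr (Or.inl rfl)))
    have hc' : c' = x ∨ c' = y ∨ c' = z :=
      (mem_tr x y z c').1 (by rw [hB]; exact (mem_tr _ _ _ _).2 (Or.inr (Or.inr rfl)))
    clear hB hmult h2
    rcases ha with rfl | rfl | rfl <;> rcases hb with rfl | rfl | rfl <;>
      rcases hc' with rfl | rfl | rfl <;>
      first
      | exact absurd rfl d1
      | exact absurd rfl d2
      | exact absurd rfl d3
      | rfl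
      | exact ht1 _ _ _
      | exact ht2 _ _ _
      | exact (ht1 _ _ _).trans (ht2 _ _ _)
      | exact (ht2 _ _ _).trans (ht1 _ _ _)
      | exact ((ht1 _ _ _).trans (ht2 _ _ _)).trans (ht1 _ _ _)
  have hm2 : ∀ x y, x < y → mult (tr x x y) = e x y := by
    intro x y hxy
    have hnex : ¬ ∃ p : Fin v × Fin v × Fin v, (p.1 ≠ p.2.1 ∧ p.2.1 ≠ p.2.2 ∧ p.1 ≠ p.2.2) ∧
        tr x x y = tr p.1 p.2.1 p.2.2 := by
      rintro ⟨p, ⟨d1, d2, d3⟩, hB⟩
      exact ne_double d1 d2 d3 hB.symm
    have hex : ∃ q : Fin v × Fin v, q.1 < q.2 ∧ tr x x y = tr q.1 q.1 q.2 :=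
      ⟨(x, y), hxy, rfl⟩
    simp only [hmult]
    rw [dif_neg hnex, dif_pos hex]
    obtain ⟨_, hB⟩ := hex.choose_spec
    obtain ⟨q1, q2⟩ := (double_inj (ne_of_lt hxy)).1 hB
    rw [← q1, ← q2]
  have hm3 : ∀ x y, y < x → mult (tr x x y) = 0 := by
    intro x y hxy
    have hnex : ¬ ∃ p : Fin v × Fin v × Fin v, (p.1 ≠ p.2.1 ∧ p.2.1 ≠ p.2.2 ∧ p.1 ≠ p.2.2) ∧
        tr x x y = tr p.1 p.2.1 p.2.2 := by
      rintro ⟨p, ⟨d1, d2, d3⟩, hB⟩
      exact ne_double d1 d2 d3 hB.symm
    have hnex' : ¬ ∃ q : Fin v × Fin v, q.1 < q.2 ∧ tr x x y = tr q.1 q.1 q.2 := by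
      rintro ⟨q, hq, hB⟩
      obtain ⟨q1, q2⟩ := (double_inj (ne_of_gt hxy)).1 hB
      rw [← q1, ← q2] at hq
      exact lt_asymm hq hxy
    simp only [hmult]
    rw [dif_neg hnex, dif_neg hnex']
  set I : Finset (Multiset (Fin v)) := (univ.image (fun p : Fin v × Fin v × Fin v =>
    tr p.1 p.2.1 p.2.2)).filter IsBlock with hI
  set D : Multiset (Multiset (Fin v)) := ∑ B ∈ I, Multiset.replicate (mult B) B with hD
  have hcount : ∀ B, IsBlock B → (∃ x y z, B = tr x y z) → D.count B = mult B := by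
    intro B hB hB'
    rw [hD, Multiset.count_sum']
    simp only [Multiset.count_replicate]
    rw [Finset.sum_ite_eq', if_pos]
    rw [hI, Finset.mem_filter]
    refine ⟨?_, hB⟩
    obtain ⟨x, y, z, rfl⟩ := hB'
    exact Finset.mem_image.2 ⟨(x, y, z), Finset.mem_univ _, rfl⟩
  have hblock : ∀ B ∈ D, IsBlock B := by
    intro B hB
    rw [hD, Multiset.mem_sum] at hB
    obtain ⟨C, hC, hB⟩ := hB
    rw [Multiset.eq_of_mem_replicate hB]
    exact (Finset.mem_filter.1 hC).2
  have hbl : ∀ x y z : Fin v, x ≠ y → IsBlock (tr x y z) := by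
    intro x y z hxy
    exact ⟨card_tr _ _ _, x, (mem_tr _ _ _ _).2 (Or.inl rfl), y,
      (mem_tr _ _ _ _).2 (Or.inr (Or.inl rfl)), hxy⟩
  have hbl2 : ∀ x y : Fin v, x ≠ y → IsBlock (tr x x y) := by
    intro x y hxy
    rw [tr_swap23]
    exact hbl x y x hxy
  have hW : ∀ x y z, W D x y z = w x y z := by
    intro x y z
    unfold W
    by_cases hd : x ≠ y ∧ y ≠ z ∧ x ≠ z
    · rw [if_pos hd, hcount _ (hbl x y z hd.1) ⟨x, y, z, rfl⟩, hm1 x y z hd.1 hd.2.1 hd.2.2]
    · rw [if_neg hd]
      by_cases q1 : x = y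
      · subst q1
        exact (ht3 x z).symm
      · by_cases q2 : y = z
        · subst q2
          rw [ht1 x y y, ht2 y x y, ht3 y x]
        · by_cases q3 : x = z
          · subst q3
            rw [ht2 x y x, ht3 x y]
          · exact absurd ⟨q1, q2, q3⟩ hd
  have hVB : IsVB v l D := by
    refine ⟨hblock, ?_⟩
    intro i j hij
    rw [key D i j hij (fun B hB => (hblock B hB).1)]
    simp only [hW]
    rw [hcount _ (hbl2 i j hij) ⟨i, i, j, rfl⟩, hcount _ (hbl2 j i hij.symm) ⟨j, j, i, rfl⟩]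
    have := he1 i j hij
    rcases lt_or_gt_of_ne hij with hlt | hlt
    · rw [hm2 i j hlt, hm3 j i hlt]
      omega
    · rw [hm3 i j hlt, hm2 j i hlt, hes j i]
      omega
  refine ⟨D, hVB, ?_⟩
  have hn := number D hVB
  simp only [hW] at hn
  omega

theorem t_D : S_D := by
  intro v l b
  constructor
  · rintro ⟨D, hD, hb⟩
    exact forward D hD hb
  · rintro ⟨w, hw, h1, h2⟩
    exact backward w hw h1 h2

end Pool.Agent.U618.VS.D
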